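import Pool.Agent.NH35.HG.Dn
import Pool.Agent.NH35.HG.OddP
import Pool.Agent.NH35.HE.Ar
import Pool.Agent.NH35.HE.Asm
import Pool.Agent.NH35.HE.Beta
import Pool.Agent.NH35.HE.Cf
import Pool.Agent.NH35.HE.Core
import Pool.Agent.NH35.HE.Fam1
import Pool.Agent.NH35.HE.Fin
import Pool.Agent.NH35.HE.Four2
import Pool.Agent.NH35.HE.Gp
import Pool.Agent.NH35.HE.JacF
import Pool.Agent.NH35.HE.K2
import Pool.Agent.NH35.HE.Kp
import Pool.Agent.NH35.HE.Kum
import Pool.Agent.NH35.HE.Low
import Pool.Agent.NH35.HE.Three
import Pool.Agent.NH35.HE.Two
import Pool.Agent.NH35.HE.Uni
import Pool.Agent.NH35.HE.We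
import Pool.Agent.NH35.HE.Weil

/-!
# Tate's conjecture on the pole for diagonal hypersurfaces of degree divisible by four

`X : c_0 * x_0 ^ m + ... + c_(n+1) * x_(n+1) ^ m = 0` is a diagonal hypersurface over the rational
numbers of even dimension `n`; all dimensions and all nonzero integral coefficients are allowed. The
degree `m` is divisible by `4` and has at most two odd prime factors; all multiples of `4` below
`420` are of this kind. Over the field `K` of `m`-th roots of unity the primitive middle cohomology
of `X` splits into the eigenlines `V(a)` of the group of automorphisms, `a` a tuple of `n + 2`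
nonzero residues modulo `m` with sum zero. Let `Z` be the set of the `a` such that the Galois group
of `K` acts trivially on `V(a)(n/2)`. The order of the pole of the `L`-function of `H ^ n(X)` at
`s = n/2 + 1` is one more than the number of orbits of `(ZMod m)ˣ` on `Z`, so Tate's conjecture says
that the lines `V(a)`, `a` in `Z`, are spanned by classes of algebraic cycles. The lines `V(a)` with
`a` in the family `Generated m` (built from the characters `{a, -a}` and the standard characters by
joins and cancellations) are known to be algebraic (Shioda, Aoki). The theorem says that all `a` in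
`Z` are in this family. It is proved more generally for the same hypersurfaces over all number
fields of odd degree over an abelian number field.
-/

set_option autoImplicit false

namespace Pool.Agent.Results.MP_058a58_ag.DegreesDivisibleByFour

open Pool.Agent.H916R2 Pool.Agent.NH35.HG Pool.Agent.NH35.HE

/-- **Diagonal hypersurfaces of degree `m` divisible by four with at most two odd prime factors.** If
the Galois group of the field of `m`-th roots of unity, or of any larger number field of odd degree
over an abelian number field, acts trivially on the line `V(a)(n/2)` (this implies `OddClass`), then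
`a` is in the family generated by the standard characters. The multiset `s` consists of the `n + 2`
pairs `(a_i, c_i)`. -/
theorem result {m : ℕ} (hm : 2 ≤ m) (h4 : 4 ∣ m) (hodd : (m.primeFactors.erase 2).card ≤ 2)
    {s : Multiset (ZMod m × ℤ)} (hs : s ≠ 0) (heven : Even (Multiset.card s))
    (h0 : ∀ z ∈ s, z.1 ≠ 0 ∧ z.2 ≠ 0) (hsum : (s.map Prod.fst).sum = 0)
    (hR : OddClass m s) : Generated m (fun _ => False) (s.map Prod.fst) :=
  have hk := hk_of fam (uni fam (weil fam))
  have hp := Pool.Agent.NH35.HE.gp
  main4 odd_weak we1_w
    (thmE_of dn fam hk jac hp gw (kum_of fam hk gw (kp hp) k2) beta we2 ar)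
    (core4_of red low (four1 low cf) (four2 low cf thin zero)) hm h4 hodd hs heven h0 hsum hR

end Pool.Agent.Results.MP_058a58_ag.DegreesDivisibleByFour
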