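import Pool.Agent.NH35.HG.Asm
import Pool.Agent.NH35.HG.Core
import Pool.Agent.NH35.HG.Dd
import Pool.Agent.NH35.HG.Dn
import Pool.Agent.NH35.HG.Fb
import Pool.Agent.NH35.HG.Fh
import Pool.Agent.NH35.HG.Gsum
import Pool.Agent.NH35.HG.He
import Pool.Agent.NH35.HG.Lev12
import Pool.Agent.NH35.HG.Lev3
import Pool.Agent.NH35.HG.OddM
import Pool.Agent.NH35.HG.OddP
import Pool.Agent.NH35.HG.We

/-!
# Tate's conjecture on the pole for diagonal hypersurfaces

`X : c_0 * x_0 ^ m + ... + c_(n+1) * x_(n+1) ^ m = 0` is a diagonal hypersurface over the rational
numbers of even dimension `n`; all dimensions and all nonzero integral coefficients are allowed. The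
degree `m` is not divisible by `4` and has at most three odd prime factors; all `m < 1155` which are
not divisible by `4` are of this kind. Over the field `K` of `m`-th roots of unity the primitive
middle cohomology of `X` splits into the eigenlines `V(a)` of the group of automorphisms, `a` a tuple
of `n + 2` nonzero residues modulo `m` with sum zero. Let `Z` be the set of the `a` such that the
Galois group of `K` acts trivially on `V(a)(n/2)`. The order of the pole of the `L`-function of
`H ^ n(X)` at `s = n/2 + 1` is one more than the number of orbits of `(ZMod m)ˣ` on `Z`, so Tate's
conjecture says that the lines `V(a)`, `a` in `Z`, are spanned by classes of algebraic cycles. The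
lines `V(a)` with `a` in the family `Generated m` (built from the characters `{a, -a}` and the
standard characters by joins and cancellations) are known to be algebraic (Shioda, Aoki). The
theorem says that all `a` in `Z` are in this family. It is proved more generally for the same
hypersurfaces over all number fields of odd degree over an abelian number field.
-/

set_option autoImplicit false

namespace Pool.Agent.Results.MP_058a58_ag.DiagonalHypersurfaces

open Pool.Agent.H916R2 Pool.Agent.NH35.HG

/-- **Diagonal hypersurfaces of degree `m` with at most three odd prime factors, `4 ∤ m`.** If the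
Galois group of the field of `m`-th roots of unity, or of any larger number field of odd degree over
an abelian number field, acts trivially on the line `V(a)(n/2)` (this implies `OddClass`), then `a`
is in the family generated by the standard characters. The multiset `s` consists of the `n + 2`
pairs `(a_i, c_i)`. -/
theorem result {m : ℕ} (hm : 2 ≤ m) (h4 : ¬ 4 ∣ m) (hodd : (m.primeFactors.erase 2).card ≤ 3)
    {s : Multiset (ZMod m × ℤ)} (hs : s ≠ 0) (heven : Even (Multiset.card s))
    (h0 : ∀ z ∈ s, z.1 ≠ 0 ∧ z.2 ≠ 0) (hsum : (s.map Prod.fst).sum = 0)
    (hR : OddClass m s) : Generated m (fun _ => False) (s.map Prod.fst) :=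
  main_odd odd_weak weak1_w weak2_w (thmA_of dn gs ee_red hecke fbeta)
    (core_of dd iota_dd fh one two (three dd fh)) hm h4 hodd hs heven h0 hsum hR

end Pool.Agent.Results.MP_058a58_ag.DiagonalHypersurfaces
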