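import Pool.Agent.NH35.HE.Ar
import Pool.Agent.NH35.HE.Asm
import Pool.Agent.NH35.HE.Beta
import Pool.Agent.NH35.HE.Fam1
import Pool.Agent.NH35.HE.Gp
import Pool.Agent.NH35.HE.JacF
import Pool.Agent.NH35.HE.K2
import Pool.Agent.NH35.HE.Kp
import Pool.Agent.NH35.HE.Kum
import Pool.Agent.NH35.HE.Uni
import Pool.Agent.NH35.HE.We
import Pool.Agent.NH35.HE.Weil
import Pool.Agent.NH35.HG.Asm
import Pool.Agent.NH35.HG.Core
import Pool.Agent.NH35.HG.Dd
import Pool.Agent.NH35.HG.Dn
import Pool.Agent.NH35.HG.Fh
import Pool.Agent.NH35.HG.OddP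
import Pool.Agent.NH35.HK.A1
import Pool.Agent.NH35.HK.Abs
import Pool.Agent.NH35.HK.Bl
import Pool.Agent.NH35.HK.Bls
import Pool.Agent.NH35.HK.Box
import Pool.Agent.NH35.HK.Cecd
import Pool.Agent.NH35.HK.Conc
import Pool.Agent.NH35.HK.Coo
import Pool.Agent.NH35.HK.Dec
import Pool.Agent.NH35.HK.Ext
import Pool.Agent.NH35.HK.Hit
import Pool.Agent.NH35.HK.Kill
import Pool.Agent.NH35.HK.Lev
import Pool.Agent.NH35.HK.Nrel
import Pool.Agent.NH35.HK.Rem
import Pool.Agent.NH35.HK.Rev
import Pool.Agent.NH35.HK.Sep
import Pool.Agent.NH35.HK.Sy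
import Pool.Agent.NH35.HK.Top
import Pool.Agent.NH35.HK.Two2
import Pool.Agent.NH35.HK.Up
import Pool.Agent.NH35.HQ.A1k
import Pool.Agent.NH35.HQ.Alg
import Pool.Agent.NH35.HQ.BoxW
import Pool.Agent.NH35.HQ.Br
import Pool.Agent.NH35.HQ.Brs
import Pool.Agent.NH35.HQ.CoA
import Pool.Agent.NH35.HQ.Core35
import Pool.Agent.NH35.HQ.Cxinv
import Pool.Agent.NH35.HQ.Gq
import Pool.Agent.NH35.HQ.KillE
import Pool.Agent.NH35.HQ.KillO
import Pool.Agent.NH35.HQ.Kx
import Pool.Agent.NH35.HQ.NrelA
import Pool.Agent.NH35.HQ.RevF
import Pool.Agent.NH35.HQ.Step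
import Pool.Agent.NH35.HQ.StepC
import Pool.Agent.NH35.HQ.Stp1
import Pool.Agent.NH35.HQ.SyF
import Pool.Agent.NH35.HQ.Two
import Pool.Agent.NH35.HS.CcG
import Pool.Agent.NH35.HS.Fin
import Pool.Agent.NH35.HS.HitG
import Pool.Agent.NH35.HS.Kap
import Pool.Agent.NH35.HS.Lead
import Pool.Agent.NH35.HS.Num
import Pool.Agent.NH35.HS.OddG
import Pool.Agent.NH35.HS.Pi
import Pool.Agent.NH35.HS.Plen
import Pool.Agent.NH35.HS.Psg

/-!
# Tate's conjecture on the pole for diagonal hypersurfaces of odd degree and small dimension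

`X : c_0 * x_0 ^ m + ... + c_(n+1) * x_(n+1) ^ m = 0` is a diagonal hypersurface over the rational
numbers of odd degree `m` and even dimension `n`, with arbitrary nonzero integral coefficients. It is
assumed that `16 (n + 2)` is smaller than the product of `p - 1` over any four prime factors of `m`
which are smaller than or equal to `n + 3`; the number of the prime factors is arbitrary. All odd `m`
are of this kind if `n ≤ 26`, all `m` which are prime to `6` if `n ≤ 176`, and all `m` prime to `30`
if `n ≤ 716`. Over the field `K` of `m`-th roots of unity the primitive middle cohomology of `X`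
splits into the eigenlines `V(a)` of the group of automorphisms, `a` a tuple of `n + 2` nonzero
residues modulo `m` with sum zero. Let `Z` be the set of the `a` such that the Galois group of `K`
acts trivially on `V(a)(n/2)`. The order of the pole of the `L`-function of `H ^ n(X)` at
`s = n/2 + 1` is one more than the number of orbits of `(ZMod m)ˣ` on `Z`, so Tate's conjecture says
that the lines `V(a)`, `a` in `Z`, are spanned by classes of algebraic cycles. The lines `V(a)` with
`a` in the family `Generated m` (built from the characters `{a, -a}` and the standard characters by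
joins and cancellations) are known to be algebraic (Shioda, Aoki). The theorem says that all `a` in
`Z` are in this family. It is proved more generally for the same hypersurfaces over all number fields
of odd degree over an abelian number field.
-/

set_option autoImplicit false

namespace Pool.Agent.Results.MP_058a58_ag.OddDegrees

open Finset Pool.Agent.H916R2 Pool.Agent.NH35.HG Pool.Agent.NH35.HE Pool.Agent.NH35.HK
open Pool.Agent.NH35.HQ Pool.Agent.NH35.HS

/-- **Diagonal hypersurfaces of odd degree `m` and dimension `n`.** Assume that `16 (n + 2)` is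
smaller than the product of `p - 1` over any four prime factors `p ≤ n + 3` of `m` (all odd `m` if
`n ≤ 26`). If the Galois group of the field of `m`-th roots of unity, or of any larger number field
of odd degree over an abelian number field, acts trivially on the line `V(a)(n/2)` (this implies
`OddClass`), then `a` is in the family generated by the standard characters. The multiset `s`
consists of the `n + 2` pairs `(a_i, c_i)`. -/
theorem result {m : ℕ} (hm : 2 ≤ m) (hodd : Odd m)
    {s : Multiset (ZMod m × ℤ)} (hs : s ≠ 0) (heven : Even (Multiset.card s))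
    (h0 : ∀ z ∈ s, z.1 ≠ 0 ∧ z.2 ≠ 0) (hsum : (s.map Prod.fst).sum = 0)
    (h4 : ∀ I ⊆ m.primeFactors.filter fun p => p ≤ Multiset.card s + 1, I.card = 4 →
      16 * Multiset.card s < ∏ q ∈ I, (q - 1))
    (hR : OddClass m s) : Generated m (fun _ => False) (s.map Prod.fst) := by
  have hk := hk_of fam (uni fam (weil fam))
  have hp := Pool.Agent.NH35.HE.gp
  have hE := thmE_of dn fam hk jac hp gw (kum_of fam hk gw (kp hp) k2) beta we2 ar
  have hsy := sy_of nrel_ok
  have habs := abs_of ext_ok (dec_of ext_ok) (a1_of ext_ok (dec_of ext_ok))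
    (top_of ext_ok hit_ok sep_ok) bl_ok
  have hrem := rem_of (conc_of habs co_ok hsy rev_ok box_ok bls_ok)
    (kill_of (two2_of bl_ok co_ok nrel_ok hsy bls_ok))
  have hdec := dec_of ext_ok
  have ha1k := a1k_of ext_ok hdec
  have hstep := step_of ext_ok hdec ha1k br_ok (stp1_of ext_ok ha1k alg_ok)
  have hsyF := syF_of nrelA_ok
  have hstepC := stepC_of hstep coA_ok hsyF revF_of brs_ok
  have hkO := killO_of kx_ok gq_ok
  have hkE := killE_of kx_ok gq_ok
  have hcore := coreQ_of hstepC hkO hkE two_ok cxinv_ok
  have hcc := ccG_of (psg_of pi_ok kap_ok lead_ok) (hitG_of plen_ok) revF_of boxW_ok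
  refine main_oddG odd_weak we1_w hE up_ok cecd_ok (oddG_of hrem lev_ok hcore hcc nb4_ok) hm hodd hs
    heven h0 hsum ?_ hR
  intro A hA hA4
  have h2 : 2 ∉ A := fun h => (Nat.not_even_iff_odd.2 hodd) (even_iff_two_dvd.2
    (Nat.dvd_of_mem_primeFactors (mem_filter.1 (hA h)).1))
  rw [if_neg h2, one_mul]
  have h5 : ∏ q ∈ A, tt q = ∏ q ∈ A, (q - 1) := prod_congr rfl fun q hq => by
    unfold tt
    rw [if_neg]
    rintro rfl
    exact h2 hq
  rw [h5]
  exact h4 A hA hA4

end Pool.Agent.Results.MP_058a58_ag.OddDegrees
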