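import Pool.Agent.NH35.HD.Uni

/-!
# The conjecture of Tate on the order of the pole for products with the curves `y² = x^p + k`

`X` is an arbitrary smooth projective variety over `ℚ`, and `C_i` are the smooth projective curves over
`ℚ` with the affine equations `y² = x^{p_i} + k_i`, where `p_i` is any odd prime and `k_i` any integer
not divisible by `p_i`.  The genus `(p_i - 1) / 2` of these curves is unbounded.  We study
`L(H^n(X × C_{l_1} × ⋯ × C_{l_j}), s)` at the edge `s = n/2 + 1`; for `n = 2m` this is the point
`s = m + 1` in the conjecture.  Neither for `X` nor for the products anything is assumed about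
analytic continuation, except that the order exists, where we speak about an order.

The conjecture predicts that the order of the pole for the product with a curve `C` is the sum of the
contributions of `H^n(X) ⊗ H⁰(C)` and `H^{n-2}(X) ⊗ H²(C)`, unless there are algebraic classes in
`H^{n-1}(X) ⊗ H¹(C)`.  For the curve `C_i` there are none if `b_{n-1}(X) < p_i - 1`, since the
representation of the Galois group of `ℚ` on `H¹(C_i)` is irreducible of dimension `p_i - 1`.  We prove
that the order of the pole is this sum if `b_{n-1}(X)² < p_i - 1`, in particular for all curves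
`y² = x^p + k` with `p` large and `k` arbitrary, once `X` is given.  So for these curves the conjecture
for `X` in the codimensions `m` and `m - 1` gives the conjecture for `X × C_i` in the codimension `m`,
as soon as the order exists.

For the proof the normalised trace of Frobenius of `C_i` at the primes `ℓ ≡ 1 (mod p_i)` is written
with Jacobi sums and residue symbols as a sum of values of a Hecke character `Ψ_i` of the field of the
`p_i`-th roots of unity.  The character is constructed for all ideals with the theorem of Stickelberger,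
the Eisenstein reciprocity law and a theorem of Kronecker (files `Pool.Agent.NH35.HD.*`); its
`L`-series and those of the quotients of its conjugates (for several curves: of the products of
the `Ψ_i`) are estimated by counting ideals in ideal classes (files `Pool.Agent.NH35.HC.*`).

The definitions of the curves are in `Pool.Agent.NH35.HD.Defs`, those of varieties, Euler products and
orders in `Pool.Agent.Y149.PK.Defs`.
-/

set_option autoImplicit false

namespace Pool.Agent.Results.MP_058a58_ag.ProductsWithHyperellipticCM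

open Filter Topology Polynomial
open Pool.Agent.Y149.CM (LFun)
open Pool.Agent.Y149.PK (Variety HasOrder size evenPart)
open Pool.Agent.NH35.HD

/-- **Products with the curves `y² = x^p + k`.**  `C_i`, `i ∈ ι`, are the curves `y² = x^{p_i} + k_i`
(`p_i` an odd prime not dividing `k_i`), `X` is a smooth projective variety over `ℚ` and `B l n` are the
Euler factors of `L(H^n(X × C_{l_1} × ⋯ × C_{l_j}), s)`, for all lists `l` of indices.  Let `b_c` be the
Betti numbers of `X`.
1. Let the primes `p_i` of the members `i` of `l` be different.  Then for every `η > 0` and all small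
`ε > 0`
`| log |L(H^n(X × C_l), n/2+1+ε)| - ∑_a C(j,a) log |L(H^{n-2a}(X), n/2-a+1+ε)| | / log(1/ε)`
is at most `err + η`, where `err` is the coefficient of `T^n` in
`b(T) ∏_{i ∈ l} (1 + T / √(p_i - 1) + T²) - b(T) (1 + T²)^j`.
2. In this situation, if the `L(H^{n-2a}(X), s)` have poles of order `r₀(n-2a)` at the edge and
`L(H^n(X × C_l), s)` has a pole of order `r`, then `|r - ∑_a C(j,a) r₀(n-2a)| ≤ err`; so
`r = ∑_a C(j,a) r₀(n-2a)` if `err < 1`.
3. For every `i` and every list `l` (for example the empty list, for which `X × C_l = X`)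
`| log |L(H^n(X × C_l × C_i), n/2+1+ε)| - log |L(H^n(X × C_l), n/2+1+ε)|
 - log |L(H^{n-2}(X × C_l), n/2+ε)| | / log(1/ε)` (the last term only for `n ≥ 2`) is at most
`dim H^{n-1}(X × C_l) / √(p_i - 1) + η` for all small `ε > 0`.
4. If `(dim H^{n-1}(X × C_l))² < p_i - 1`, then the order of the pole of `L(H^n(X × C_l × C_i), s)` is
the sum of those of `L(H^n(X × C_l), s)` and of `L(H^{n-2}(X × C_l), s)` (if these orders exist).  For
the empty list the condition is `b_{n-1}² < p_i - 1`.
5. Let `e 0, e 1, …` be indices such that the primes grow fast: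
`(j ∏_{i<j} (p_{e i} + 1))² < p_{e j} - 1` for all `j`.  Then for every variety `X`, for which these
orders exist, there is a `j₀` such that the order of the pole of `L(H^n(X × ∏_{j ∈ J} C_{e j}), s)` is
`∑_a C(|J|,a) r₀(n-2a)` for all finite sets `J` of numbers `j ≥ j₀` and all `n`. -/
theorem result (ι : Type) (p : ι → ℕ) (k : ι → ℤ) (hC : IsCurveFamily p k) (X : Variety)
    (B : List ι → ℕ → Nat.Primes → ℂ[X]) (hB : IsCurveSystem X p k B) :
    (∀ l : List ι, (l.map p).Nodup → ∀ (n : ℕ) (η : ℝ), 0 < η → ∀ᶠ ε : ℝ in 𝓝[>] 0,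
      LFun (B l n) ((n : ℂ) / 2 + 1 + ε) ≠ 0 ∧
      |size n (B l n) ε - evenPart (fun c => size c (B [] c) ε) l.length n| ≤
        err X.betti p l n + η) ∧
    (∀ l : List ι, (l.map p).Nodup → ∀ (n : ℕ) (r₀ : ℕ → ℤ) (r : ℤ),
      (∀ c, c ≤ n → Even (n - c) → HasOrder c (B [] c) (-(r₀ c))) → HasOrder n (B l n) (-r) →
      |(r : ℝ) - (evenPart r₀ l.length n : ℤ)| ≤ err X.betti p l n ∧
      (err X.betti p l n < 1 → r = evenPart r₀ l.length n)) ∧
    (∀ (i : ι) (l : List ι) (n : ℕ) (η : ℝ), 0 < η → ∀ᶠ ε : ℝ in 𝓝[>] 0,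
      |size n (B (i :: l) n) ε - (size n (B l n) ε + if 2 ≤ n then size (n - 2) (B l (n - 2)) ε
        else 0)| ≤ (dimC X.betti p l (n - 1) : ℝ) / Real.sqrt ((p i : ℝ) - 1) + η) ∧
    (∀ (i : ι) (l : List ι) (n : ℕ), dimC X.betti p l (n - 1) ^ 2 < p i - 1 →
      ∀ r₀ r₂ r : ℤ, HasOrder n (B l n) (-r₀) →
        (2 ≤ n → HasOrder (n - 2) (B l (n - 2)) (-r₂)) → HasOrder n (B (i :: l) n) (-r) →
        r = r₀ + if 2 ≤ n then r₂ else 0) ∧
    (∀ e : ℕ → ι, (∀ j, (j * ∏ i ∈ Finset.range j, (p (e i) + 1)) ^ 2 < p (e j) - 1) →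
      ∀ r : List ℕ → ℕ → ℤ, (∀ l n, HasOrder n (B (l.map e) n) (-(r l n))) →
      ∃ j₀, ∀ l : List ℕ, l.Pairwise (· > ·) → (∀ j ∈ l, j₀ ≤ j) → ∀ n,
        r l n = evenPart (r []) l.length n) := by
  obtain ⟨γ, hγ, hE⟩ := hB
  have hV := variety_VG X
  refine ⟨fun l hl n η hη => ?_, fun l hl n r₀ r h₀ hr => ?_, fun i l n η hη => ?_,
    fun i l n hd r₀ r₂ r h₀ h₂ hr => ?_, fun e he r hr => universal hC e he X hγ hE r hr⟩
  · obtain ⟨C, h1⟩ := link hC hV hγ l (hE l n)
    filter_upwards [h1, main_size hC hV hγ hE hl n hη] with ε g1 g2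
    exact ⟨g1.1, g2⟩
  · have h1 := main_order hC hV hγ hE hl h₀ hr
    refine ⟨h1, fun h2 => ?_⟩
    have h3 : |((r - evenPart r₀ l.length n : ℤ) : ℝ)| < 1 := by
      push_cast
      exact h1.trans_lt h2
    have h4 : |r - evenPart r₀ l.length n| < 1 := by exact_mod_cast h3
    have h5 := Int.abs_lt_one_iff.1 h4
    omega
  · filter_upwards [one_size hC hV hγ hE i l n hη] with ε g1
    rwa [Pool.Agent.Y149.PK.evenPart_succ, evenPart_nil, evenPart_nil] at g1
  · exact one_order hC hV hγ hE i l hd h₀ h₂ hr

end Pool.Agent.Results.MP_058a58_ag.ProductsWithHyperellipticCM
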